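import Pool.Agent.helper97.KR.Spec

set_option autoImplicit false

namespace Pool.Agent.helper97.KR

open Finset Classical

noncomputable section

theorem CE_one {V : Type} (z : Sym2 V) (T : Finset V) (hz : ¬ z.IsDiag) :
    ∑ u ∈ T, ∑ v ∈ T, (if z = s(u, v) then 1 else 0) = if (∀ v ∈ z, v ∈ T) then 2 else 0 := by
  induction z using Sym2.ind with
  | _ a b =>
    have hab : a ≠ b := by simpa using hz
    have h1 : ∑ u ∈ T, ∑ v ∈ T, (if s(a, b) = s(u, v) then 1 else 0) =
        ((T ×ˢ T).filter fun p => s(a, b) = s(p.1, p.2)).card := by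
      rw [Finset.card_filter, Finset.sum_product]
    rw [h1]
    by_cases h : a ∈ T ∧ b ∈ T
    · have h2 : ((T ×ˢ T).filter fun p => s(a, b) = s(p.1, p.2)) = {(a, b), (b, a)} := by
        ext ⟨u, v⟩
        simp only [Finset.mem_filter, Finset.mem_product, Sym2.eq_iff, Finset.mem_insert,
          Finset.mem_singleton, Prod.mk.injEq]
        constructor
        · rintro ⟨_, h3 | h3⟩
          · exact Or.inl ⟨h3.1.symm, h3.2.symm⟩
          · exact Or.inr ⟨h3.2.symm, h3.1.symm⟩
        · rintro (⟨rfl, rfl⟩ | ⟨rfl, rfl⟩)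
          · exact ⟨h, Or.inl ⟨rfl, rfl⟩⟩
          · exact ⟨⟨h.2, h.1⟩, Or.inr ⟨rfl, rfl⟩⟩
      have h3 : ∀ v ∈ s(a, b), v ∈ T := by
        intro v hv
        rcases Sym2.mem_iff.1 hv with rfl | rfl
        · exact h.1
        · exact h.2
      rw [h2, if_pos h3, Finset.card_pair]
      intro h4
      exact hab (Prod.mk.inj h4).1
    · have h2 : ((T ×ˢ T).filter fun p => s(a, b) = s(p.1, p.2)) = ∅ := by
        rw [Finset.filter_eq_empty_iff]
        rintro ⟨u, v⟩ huv h3
        rw [Finset.mem_product] at huv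
        rcases Sym2.eq_iff.1 h3 with h4 | h4
        · exact h ⟨h4.1 ▸ huv.1, h4.2 ▸ huv.2⟩
        · exact h ⟨h4.1 ▸ huv.2, h4.2 ▸ huv.1⟩
      have h3 : ¬ ∀ v ∈ s(a, b), v ∈ T := fun h4 =>
        h ⟨h4 a (Sym2.mem_mk_left a b), h4 b (Sym2.mem_mk_right a b)⟩
      rw [h2, if_neg h3, Finset.card_empty]

theorem CE_two {V : Type} (z : Sym2 V) (T : Finset V) (x : V) (hz : ¬ z.IsDiag) (hx : x ∉ T) :
    (if (∀ v ∈ z, v ∈ insert x T) then 1 else 0) =
      (if (∀ v ∈ z, v ∈ T) then 1 else 0) + ∑ v ∈ T, (if z = s(x, v) then 1 else 0) := by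
  induction z using Sym2.ind with
  | _ a b =>
    have hab : a ≠ b := by simpa using hz
    have hT : ∀ U : Finset V, (∀ v ∈ s(a, b), v ∈ U) ↔ a ∈ U ∧ b ∈ U := by
      intro U
      constructor
      · intro h
        exact ⟨h a (Sym2.mem_mk_left a b), h b (Sym2.mem_mk_right a b)⟩
      · intro h v hv
        rcases Sym2.mem_iff.1 hv with rfl | rfl
        · exact h.1
        · exact h.2
    simp only [hT]
    by_cases ha : a = x
    · subst ha
      have h1 : ∀ v ∈ T, (if s(a, b) = s(a, v) then 1 else 0) = if b = v then 1 else 0 := by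
        intro v _
        have h2 : s(a, b) = s(a, v) ↔ b = v := Sym2.congr_right
        simp only [h2]
      rw [Finset.sum_congr rfl h1, Finset.sum_ite_eq]
      simp [hx, hab.symm]
    · by_cases hb : b = x
      · subst hb
        have h1 : ∀ v ∈ T, (if s(a, b) = s(b, v) then 1 else 0) = if a = v then 1 else 0 := by
          intro v _
          have h2 : s(a, b) = s(b, v) ↔ a = v := by
            rw [Sym2.eq_swap (a := b) (b := v)]
            exact Sym2.congr_left
          simp only [h2]
        rw [Finset.sum_congr rfl h1, Finset.sum_ite_eq]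
        simp [hx, hab]
      · have h1 : ∀ v ∈ T, (if s(a, b) = s(x, v) then 1 else 0) = 0 := by
          intro v _
          rw [if_neg]
          intro h2
          rcases Sym2.eq_iff.1 h2 with h3 | h3
          · exact ha h3.1
          · exact hb h3.2
        rw [Finset.sum_eq_zero h1]
        simp [ha, hb]

theorem CE : CE_stmt := by
  intro V E ends F T x hF hx
  constructor
  · unfold ins
    simp only [Finset.card_filter]
    have h1 : ∑ u ∈ T, ∑ v ∈ T, ∑ e ∈ F, (if ends e = s(u, v) then 1 else 0) =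
        ∑ e ∈ F, ∑ u ∈ T, ∑ v ∈ T, (if ends e = s(u, v) then 1 else 0) := by
      refine Eq.trans (Finset.sum_congr rfl fun u _ => Finset.sum_comm) ?_
      exact Finset.sum_comm
    rw [h1, Finset.mul_sum]
    refine Finset.sum_congr rfl fun e he => ?_
    rw [CE_one (ends e) T (hF e he)]
    split_ifs <;> rfl
  · unfold ins
    simp only [Finset.card_filter]
    rw [Finset.sum_comm, ← Finset.sum_add_distrib]
    exact Finset.sum_congr rfl fun e he => CE_two (ends e) T x (hF e he) hx

end

end Pool.Agent.helper97.KR
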